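import Pool.Agent.EVF.StmtsR

/-!
# Squad EVF, row RS2: common prime divisors of two binary forms at coprime pairs
-/

namespace Pool.Agent.EVF.H63

open MvPolynomial

/-- two irreducible polynomials that are not associated: elimination of the variable -/
theorem elim {A : Type} [CommRing A] [IsDomain A] [UniqueFactorizationMonoid A]
    (f g : Polynomial A) (hf : Irreducible f) (hg : Irreducible g) (h : ¬ Associated f g) :
    ∃ (u v : Polynomial A) (d : A), d ≠ 0 ∧ u * f + v * g = Polynomial.C d := by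
  classical
  letI : NormalizedGCDMonoid A := Classical.choice inferInstance
  by_cases hf0 : f.natDegree = 0
  · refine ⟨1, 0, f.coeff 0, ?_, ?_⟩
    · intro h0
      apply hf.ne_zero
      rw [Polynomial.eq_C_of_natDegree_eq_zero hf0, h0, Polynomial.C_0]
    · rw [one_mul, zero_mul, add_zero]
      exact Polynomial.eq_C_of_natDegree_eq_zero hf0
  by_cases hg0 : g.natDegree = 0
  · refine ⟨0, 1, g.coeff 0, ?_, ?_⟩
    · intro h0
      apply hg.ne_zero
      rw [Polynomial.eq_C_of_natDegree_eq_zero hg0, h0, Polynomial.C_0]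
    · rw [one_mul, zero_mul, zero_add]
      exact Polynomial.eq_C_of_natDegree_eq_zero hg0
  have hfp : f.IsPrimitive := hf.isPrimitive hf0
  have hgp : g.IsPrimitive := hg.isPrimitive hg0
  let K := FractionRing A
  have hfK : Irreducible (f.map (algebraMap A K)) :=
    (hfp.irreducible_iff_irreducible_map_fraction_map (K := K)).1 hf
  have hnd : ¬ f.map (algebraMap A K) ∣ g.map (algebraMap A K) := by
    intro hd
    have h1 : f ∣ g := hfp.dvd_of_fraction_map_dvd_fraction_map (K := K) hd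
    exact h ((hf.dvd_irreducible_iff_associated hg).1 h1)
  have hco : IsCoprime (f.map (algebraMap A K)) (g.map (algebraMap A K)) :=
    (hfK.coprime_iff_not_dvd).2 hnd
  obtain ⟨U, V, hUV⟩ := hco
  obtain ⟨b, hb⟩ := IsLocalization.integerNormalization_map_to_map (nonZeroDivisors A) U
  obtain ⟨c, hc⟩ := IsLocalization.integerNormalization_map_to_map (nonZeroDivisors A) V
  refine ⟨Polynomial.C (c : A) * IsLocalization.integerNormalization (nonZeroDivisors A) U,
    Polynomial.C (b : A) * IsLocalization.integerNormalization (nonZeroDivisors A) V,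
    (b : A) * (c : A), mul_ne_zero (nonZeroDivisors.coe_ne_zero b)
      (nonZeroDivisors.coe_ne_zero c), ?_⟩
  apply Polynomial.map_injective (algebraMap A K) (IsFractionRing.injective A K)
  rw [Polynomial.map_add, Polynomial.map_mul, Polynomial.map_mul, Polynomial.map_mul,
    Polynomial.map_mul, hb, hc, Polynomial.map_C, Polynomial.map_C, Polynomial.map_C, map_mul]
  have e1 : ((b : A) • U : Polynomial K) = Polynomial.C (algebraMap A K (b : A)) * U := by
    rw [Algebra.smul_def]; rfl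
  have e2 : ((c : A) • V : Polynomial K) = Polynomial.C (algebraMap A K (c : A)) * V := by
    rw [Algebra.smul_def]; rfl
  rw [e1, e2, Polynomial.C_mul]
  linear_combination (Polynomial.C (algebraMap A K (b : A)) *
    Polynomial.C (algebraMap A K (c : A))) * hUV

/-- scaling of a homogeneous form -/
theorem bv_scale (φ : MvPolynomial (Fin 2) ℤ) (s : ℕ) (h : φ.IsHomogeneous s) (a b l : ℤ) :
    bv φ (l * a) (l * b) = l ^ s * bv φ a b := by
  unfold bv
  rw [MvPolynomial.eval_eq', MvPolynomial.eval_eq', Finset.mul_sum]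
  apply Finset.sum_congr rfl
  intro d hd
  have h1 : d 0 + d 1 = s := by
    have h2 := h (MvPolynomial.mem_support_iff.1 hd)
    rw [← h2, Finsupp.weight_apply, Finsupp.sum_fintype _ _ (by simp)]
    simp
  rw [Fin.prod_univ_two, Fin.prod_univ_two]
  simp only [Matrix.cons_val_zero, Matrix.cons_val_one]
  rw [← h1, mul_pow, mul_pow, pow_add]
  ring

/-- values of a polynomial modulo `p` -/
theorem eval_modp (p : ℕ) (d : MvPolynomial (Fin 1) ℤ) (x y : Fin 1 → ℤ)
    (h : ∀ i, ((x i : ℤ) : ZMod p) = ((y i : ℤ) : ZMod p)) :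
    ((MvPolynomial.eval x d : ℤ) : ZMod p) = ((MvPolynomial.eval y d : ℤ) : ZMod p) := by
  have h1 : ∀ z : Fin 1 → ℤ, ((MvPolynomial.eval z d : ℤ) : ZMod p) =
      MvPolynomial.eval₂ (Int.castRingHom (ZMod p)) (fun i => ((z i : ℤ) : ZMod p)) d := by
    intro z
    have h2 := MvPolynomial.eval₂_comp_left (Int.castRingHom (ZMod p)) (RingHom.id ℤ) z d
    rw [RingHom.comp_id] at h2
    exact h2
  rw [h1 x, h1 y]
  congr 1
  funext i
  exact h i

/-- one half of the statement -/
theorem half (φ ψ : MvPolynomial (Fin 2) ℤ) (s s' : ℕ) (h1 : φ.IsHomogeneous s)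
    (h2 : ψ.IsHomogeneous s') (i1 : Irreducible φ) (i2 : Irreducible ψ) (hs : 1 ≤ s)
    (hs' : 1 ≤ s') (hna : ¬ Associated φ ψ) :
    ∃ R : ℕ, 1 ≤ R ∧ ∀ a b : ℤ, ∀ p : ℕ, p.Prime → ¬ (p : ℤ) ∣ b → (p : ℤ) ∣ bv φ a b →
      (p : ℤ) ∣ bv ψ a b → p ∣ R := by
  classical
  let e := MvPolynomial.finSuccEquiv ℤ 1
  have j1 : Irreducible (e φ) := (MulEquiv.irreducible_iff e).2 i1
  have j2 : Irreducible (e ψ) := (MulEquiv.irreducible_iff e).2 i2
  have j3 : ¬ Associated (e φ) (e ψ) := by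
    intro h
    apply hna
    have h3 := h.map e.symm
    simpa using h3
  obtain ⟨u, v, d, hd, huv⟩ := elim (e φ) (e ψ) j1 j2 j3
  obtain ⟨x, hx⟩ : ∃ x : Fin 1 → ℤ, MvPolynomial.eval x d ≠ 0 := by
    by_contra hcon
    push Not at hcon
    apply hd
    apply MvPolynomial.funext
    intro x
    rw [hcon x, map_zero]
  refine ⟨(MvPolynomial.eval x d).natAbs, Nat.one_le_iff_ne_zero.2 (Int.natAbs_ne_zero.2 hx), ?_⟩
  intro a b p hp hb hφ hψ
  haveI : Fact p.Prime := ⟨hp⟩
  have hb0 : ((b : ℤ) : ZMod p) ≠ 0 := by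
    intro h0
    exact hb ((ZMod.intCast_zmod_eq_zero_iff_dvd b p).1 h0)
  -- the scaling factor
  obtain ⟨l, hl⟩ : ∃ l : ℤ, ((l * b : ℤ) : ZMod p) = ((x 0 : ℤ) : ZMod p) := by
    obtain ⟨l, hl⟩ := ZMod.intCast_surjective (((x 0 : ℤ) : ZMod p) * ((b : ℤ) : ZMod p)⁻¹)
    refine ⟨l, ?_⟩
    rw [Int.cast_mul, hl, mul_assoc, inv_mul_cancel₀ hb0, mul_one]
  have hev : ∀ f : MvPolynomial (Fin 2) ℤ, bv f (l * a) (l * b) =
      Polynomial.eval (l * a) (Polynomial.map (MvPolynomial.eval ![l * b]) (e f)) := by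
    intro f
    have := MvPolynomial.eval_eq_eval_mv_eval' ![l * b] (l * a) f
    exact this
  have hsum := congrArg (fun q => Polynomial.eval (l * a)
    (Polynomial.map (MvPolynomial.eval ![l * b]) q)) huv
  simp only [Polynomial.map_add, Polynomial.map_mul, Polynomial.eval_add, Polynomial.eval_mul,
    Polynomial.map_C, Polynomial.eval_C, ← hev] at hsum
  rw [bv_scale φ s h1, bv_scale ψ s' h2] at hsum
  have hdv : (p : ℤ) ∣ MvPolynomial.eval ![l * b] d := by
    rw [← hsum]
    apply dvd_add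
    · exact Dvd.dvd.mul_left (Dvd.dvd.mul_left hφ _) _
    · exact Dvd.dvd.mul_left (Dvd.dvd.mul_left hψ _) _
  have hm := eval_modp p d ![l * b] x (by
    intro i
    have hi : i = 0 := Subsingleton.elim _ _
    subst hi
    exact hl)
  rw [(ZMod.intCast_zmod_eq_zero_iff_dvd _ p).2 hdv] at hm
  have h5 : (p : ℤ) ∣ MvPolynomial.eval x d := (ZMod.intCast_zmod_eq_zero_iff_dvd _ p).1 hm.symm
  exact Int.natCast_dvd.1 h5

/-- the swap of the variables -/
theorem bv_swap (φ : MvPolynomial (Fin 2) ℤ) (a b : ℤ) :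
    bv (MvPolynomial.renameEquiv ℤ (Equiv.swap (0 : Fin 2) 1) φ) a b = bv φ b a := by
  unfold bv
  rw [MvPolynomial.renameEquiv_apply, MvPolynomial.eval_rename]
  congr 1
  congr 1
  funext i
  fin_cases i
  · simp
  · simp

theorem rs2 : Rs2Stmt := by
  intro φ ψ s s' h1 h2 i1 i2 hs hs' hna
  obtain ⟨R, hR, hR'⟩ := half φ ψ s s' h1 h2 i1 i2 hs hs' hna
  let e := MvPolynomial.renameEquiv ℤ (Equiv.swap (0 : Fin 2) 1)
  have j1 : Irreducible (e φ) := (MulEquiv.irreducible_iff e).2 i1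
  have j2 : Irreducible (e ψ) := (MulEquiv.irreducible_iff e).2 i2
  have j3 : ¬ Associated (e φ) (e ψ) := by
    intro h
    apply hna
    have h3 := h.map e.symm
    simpa using h3
  have k1 : (e φ).IsHomogeneous s := by
    have : e φ = MvPolynomial.rename (Equiv.swap (0 : Fin 2) 1) φ := rfl
    rw [this]
    exact h1.rename_isHomogeneous
  have k2 : (e ψ).IsHomogeneous s' := by
    have : e ψ = MvPolynomial.rename (Equiv.swap (0 : Fin 2) 1) ψ := rfl
    rw [this]
    exact h2.rename_isHomogeneous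
  obtain ⟨Q, hQ, hQ'⟩ := half (e φ) (e ψ) s s' k1 k2 j1 j2 hs hs' j3
  refine ⟨R * Q, Nat.mul_pos hR hQ, ?_⟩
  intro a b hab p hp hφ hψ
  by_cases hb : (p : ℤ) ∣ b
  · have ha : ¬ (p : ℤ) ∣ a := by
      intro ha
      have h3 : IsUnit (p : ℤ) := hab.isUnit_of_dvd' ha hb
      have h4 := Int.isUnit_iff_natAbs_eq.1 h3
      rw [Int.natAbs_natCast] at h4
      exact hp.one_lt.ne' h4
    have := hQ' b a p hp ha (by rw [bv_swap]; exact hφ) (by rw [bv_swap]; exact hψ)
    exact Dvd.dvd.mul_left this R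
  · exact Dvd.dvd.mul_right (hR' a b p hp hb hφ hψ) Q

end Pool.Agent.EVF.H63
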