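import Pool.Agent.EVF.StmtsG

/-!
# Squad EVF, row KER: the integrand at a good point
-/

namespace Pool.Agent.EVF.H63

open MvPolynomial MeasureTheory Matrix
open scoped ComplexOrder

/-- the form for a matrix of rank one -/
theorem form_rank {r : ℕ} (N : Mat r) (q q' : Vec r) (z : Fin 2 → ℂ) (w : Fin r → ℂ) (hw : w ≠ 0)
    (h : ∀ i j, aeval z (N.adjugate i j) = w i * w j) :
    form N q q' z = (∑ i, aeval z (q i) * w i) * star (∑ i, aeval z (q' i) * w i) := by
  have hadj : ∀ i j, adj N z i j = w i * w j := fun i j => h i j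
  have hmul : ∀ a : Fin r → ℂ, (adj N z *ᵥ a) = fun i => w i * ∑ j, a j * w j := by
    intro a
    funext i
    show ∑ j, adj N z i j * a j = _
    rw [Finset.mul_sum]
    refine Finset.sum_congr rfl fun j _ => ?_
    rw [hadj]
    ring
  have hhs : hs (adj N z) = ∑ i, ‖w i‖ ^ 2 := by
    unfold hs
    have e : (∑ i, ∑ j, ‖adj N z i j‖ ^ 2) = (∑ i, ‖w i‖ ^ 2) ^ 2 := by
      rw [sq, Finset.sum_mul_sum]
      refine Finset.sum_congr rfl fun i _ => Finset.sum_congr rfl fun j _ => ?_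
      rw [hadj, norm_mul, mul_pow]
    rw [e, Real.sqrt_sq (Finset.sum_nonneg fun i _ => by positivity)]
  have hpos : 0 < ∑ i, ‖w i‖ ^ 2 := by
    obtain ⟨i, hi⟩ := Function.ne_iff.1 hw
    have h1 : 0 < ‖w i‖ ^ 2 := by
      have : 0 < ‖w i‖ := norm_pos_iff.2 hi
      positivity
    exact h1.trans_le (Finset.single_le_sum (f := fun i => ‖w i‖ ^ 2)
      (fun j _ => by positivity) (Finset.mem_univ i))
  unfold form
  rw [hmul, hmul, hhs]
  set S : ℂ := ∑ j, aeval z (q j) * w j with hS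
  set S' : ℂ := ∑ j, aeval z (q' j) * w j with hS'
  have e : ((fun i => w i * S) ⬝ᵥ star (fun i => w i * S')) =
      S * star S' * ((∑ i, ‖w i‖ ^ 2 : ℝ) : ℂ) := by
    show ∑ i, (w i * S) * star (w i * S') = _
    rw [Complex.ofReal_sum, Finset.mul_sum]
    refine Finset.sum_congr rfl fun i _ => ?_
    rw [star_mul', Complex.ofReal_pow, ← Complex.mul_conj']
    show w i * S * (star (w i) * star S') = S * star S' * (w i * star (w i))
    ring
  rw [e, mul_div_assoc, div_self, mul_one]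
  exact_mod_cast hpos.ne'

/-- Row KER. -/
theorem ker (lea : LeaStmt) (rk1 : Rk1Stmt) : KerStmt := by
  classical
  intro r s N hs hN x hx
  have hL := (lea r s (cmat N) hs hN).1
  have hx' := (hL.card_eq_iff x).1 hx
  have hex : ∀ y, ∃ w : Fin r → ℂ, y ∈ Helper90Frey.rts (cmat N).det x →
      (w ≠ 0 ∧ ∀ i j, Helper90Frey.val ((cmat N).adjugate i j) x y = w i * w j) := by
    intro y
    by_cases hy : y ∈ Helper90Frey.rts (cmat N).det x
    · have h1 := hL.mem_rts.1 hy
      obtain ⟨w, hw, hw'⟩ := rk1 r (cmat N) hN.symm x y h1 (hx' y h1)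
      exact ⟨w, fun _ => ⟨hw, hw'⟩⟩
    · exact ⟨0, fun h => absurd h hy⟩
  choose W hW using hex
  refine ⟨W, hW, ?_⟩
  intro q q'
  have hset : {y : ℂ | aeval ![x, y] (F N) = 0} =
      ((Helper90Frey.rts (cmat N).det x : Finset ℂ) : Set ℂ) := by
    ext y
    have h1 : y ∈ Helper90Frey.rts (cmat N).det x ↔ Helper90Frey.val (cmat N).det x y = 0 :=
      hL.mem_rts
    rw [Finset.mem_coe, h1, cmat_det, val_cpx]
    rfl
  unfold kernel
  rw [hset, finsum_mem_coe_finset]
  refine Finset.sum_congr rfl fun y hy => ?_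
  obtain ⟨hw, hw'⟩ := hW y hy
  have h1 : ∀ i j, aeval ![x, y] (N.adjugate i j) = W y i * W y j := by
    intro i j
    rw [← hw' i j, cmat_adj, val_cpx]
  have h2 : aeval ![x, y] (pderiv 1 (F N)) = Helper90Frey.val (pderiv 1 (cmat N).det) x y := by
    rw [cmat_det]
    unfold cpx
    rw [pderiv_map]
    exact (val_cpx _ x y).symm
  rw [form_rank N q q' ![x, y] (W y) hw h1, h2]
  simp only [val_cpx]

end Pool.Agent.EVF.H63
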